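import Pool.Agent.Helper21.EM.Stmts
import Pool.Agent.Helper21.WE.CZ
import Pool.Agent.Helper14.MT.So

/-!
# EM, row ETY: an element with eigenvalues `1`, `-1` (of multiplicity one) and `0`
-/

set_option autoImplicit false

open Matrix MT

namespace EM

namespace Ety

open MT.Psr MT.Smp

variable {K : Type} [Field K] {r : ℕ}

/-- the matrix with the given columns -/
def cols (p : Fin r → (Fin r → K)) : Matrix (Fin r) (Fin r) K := Matrix.of fun i j => p j i

lemma gram (ψ : Matrix (Fin r) (Fin r) K) (p : Fin r → (Fin r → K)) (i j : Fin r) :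
    ((cols p).transpose * ψ * cols p) i j = pf ψ (p i) (p j) := by
  rw [Matrix.mul_assoc, Matrix.mul_apply]
  rfl

lemma det_cols {p : Fin r → (Fin r → K)}
    (h : ∀ v : Fin r → K, cols p *ᵥ v = 0 → v = 0) : (cols p).det ≠ 0 := by
  intro h0
  obtain ⟨v, hv, hv0⟩ := Matrix.exists_mulVec_eq_zero_iff.mpr h0
  exact hv (h v hv0)

lemma build {ψ : Matrix (Fin r) (Fin r) K} {p : Fin r → (Fin r → K)} (s : Fin r → ℤ)
    (h : (cols p).det ≠ 0) (hs : ∀ i j, pf ψ (p i) (p j) ≠ 0 → s i + s j = 0) :
    ∃ P : Matrix.GeneralLinearGroup (Fin r) K, (dg P s).transpose * ψ + ψ * dg P s = 0 := by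
  let P := Matrix.GeneralLinearGroup.mkOfDetNeZero (cols p) h
  refine ⟨P, ?_⟩
  have hP : (P : Matrix (Fin r) (Fin r) K) = cols p := rfl
  set q : Matrix (Fin r) (Fin r) K :=
    ((P⁻¹ : Matrix.GeneralLinearGroup (Fin r) K) : Matrix (Fin r) (Fin r) K) with hq
  have hqp : q * cols p = 1 := by
    rw [← hP, hq]
    rw [← Units.val_mul, inv_mul_cancel]
    rfl
  have hpq : cols p * q = 1 := by
    rw [← hP, hq]
    rw [← Units.val_mul, mul_inv_cancel]
    rfl
  have hdg : dg P s = cols p * Matrix.diagonal (fun j => (s j : K)) * q := rfl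
  set D : Matrix (Fin r) (Fin r) K := Matrix.diagonal (fun j => (s j : K)) with hD
  set G : Matrix (Fin r) (Fin r) K := (cols p).transpose * ψ * cols p with hG
  have hψ : ψ = q.transpose * G * q := by
    have h1 : q.transpose * (cols p).transpose = 1 := by
      rw [← Matrix.transpose_mul, hpq, Matrix.transpose_one]
    calc ψ = (q.transpose * (cols p).transpose) * ψ * (cols p * q) := by
          rw [h1, hpq, Matrix.one_mul, Matrix.mul_one]
      _ = _ := by rw [hG]; simp only [Matrix.mul_assoc]
  have hDG : D * G + G * D = 0 := by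
    ext i j
    rw [Matrix.add_apply, hD, Matrix.diagonal_mul, Matrix.mul_diagonal, hG, gram,
      Matrix.zero_apply]
    by_cases h0 : pf ψ (p i) (p j) = 0
    · rw [h0]; ring
    · have h1 := hs i j h0
      have h2 : (s i : K) + (s j : K) = 0 := by exact_mod_cast congrArg (fun z : ℤ => (z : K)) h1
      calc (s i : K) * pf ψ (p i) (p j) + pf ψ (p i) (p j) * (s j : K)
          = ((s i : K) + (s j : K)) * pf ψ (p i) (p j) := by ring
        _ = 0 := by rw [h2, zero_mul]
  have hDT : D.transpose = D := Matrix.diagonal_transpose _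
  rw [hdg]
  have e1 : (cols p * D * q).transpose * ψ = q.transpose * (D * G) * q := by
    rw [Matrix.transpose_mul, Matrix.transpose_mul, hDT]
    have h1 : (cols p).transpose * ψ = G * q := by
      rw [hG, Matrix.mul_assoc, Matrix.mul_assoc, hpq, Matrix.mul_one]
    calc q.transpose * (D * (cols p).transpose) * ψ
        = q.transpose * (D * ((cols p).transpose * ψ)) := by simp only [Matrix.mul_assoc]
      _ = _ := by rw [h1]; simp only [Matrix.mul_assoc]
  have e2 : ψ * (cols p * D * q) = q.transpose * (G * D) * q := by
    have h1 : ψ * cols p = q.transpose * G := by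
      calc ψ * cols p = q.transpose * G * (q * cols p) := by
            conv_lhs => rw [hψ]
            simp only [Matrix.mul_assoc]
        _ = _ := by rw [hqp, Matrix.mul_one]
    calc ψ * (cols p * D * q) = (ψ * cols p) * D * q := by simp only [Matrix.mul_assoc]
      _ = _ := by rw [h1]; simp only [Matrix.mul_assoc]
  rw [e1, e2, ← Matrix.add_mul, ← Matrix.mul_add, hDG, Matrix.mul_zero, Matrix.zero_mul]

lemma cols_mulVec (p : Fin r → (Fin r → K)) (v : Fin r → K) :
    cols p *ᵥ v = ∑ j, v j • p j := by
  ext i
  simp only [cols, Matrix.mulVec, dotProduct, Matrix.of_apply, Finset.sum_apply, Pi.smul_apply,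
    smul_eq_mul]
  exact Finset.sum_congr rfl fun j _ => mul_comm _ _

lemma pf_cols (ψ : Matrix (Fin r) (Fin r) K) (x : Fin r → K) (p : Fin r → (Fin r → K))
    (v : Fin r → K) : pf ψ x (cols p *ᵥ v) = ∑ j, v j * pf ψ x (p j) := by
  rw [cols_mulVec]
  unfold pf
  rw [Matrix.mulVec_sum, dotProduct_sum]
  refine Finset.sum_congr rfl fun j _ => ?_
  rw [Matrix.mulVec_smul, dotProduct_smul, smul_eq_mul]

end Ety

open Ety MT.Psr MT.Smp in
theorem st_ETY : ST_ETY := by
  intro K _ _ _ r w ψ hr hdet hψ
  rcases Nat.even_or_odd w with hw | hw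
  · -- symmetric
    have hs : ψ.transpose = ψ := by rw [hψ, hw.neg_one_pow, one_smul]
    obtain ⟨b, hb1, hb2⟩ := ortho_basis hs ((Matrix.isUnit_iff_isUnit_det _).mpr hdet.isUnit)
    let i₀ : Fin r := ⟨0, by omega⟩
    let j₀ : Fin r := ⟨1, by omega⟩
    have hij : i₀ ≠ j₀ := by
      intro h
      have := congrArg Fin.val h
      simp [i₀, j₀] at this
    obtain ⟨c, hc⟩ := IsAlgClosed.exists_pow_nat_eq (-(pf ψ (b j₀) (b j₀) / pf ψ (b i₀) (b i₀)))
      (n := 2) (by norm_num)
    have hc2 : c ^ 2 * pf ψ (b i₀) (b i₀) + pf ψ (b j₀) (b j₀) = 0 := by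
      rw [hc]
      field_simp [hb2 i₀]
      ring
    have hc0 : c ≠ 0 := by
      rintro rfl
      rw [zero_pow (by norm_num), zero_mul, zero_add] at hc2
      exact hb2 j₀ hc2
    let x : Fin r → K := c • b i₀ + b j₀
    let y : Fin r → K := (-c) • b i₀ + b j₀
    let p : Fin r → (Fin r → K) := fun j => if j = i₀ then x else if j = j₀ then y else b j
    have hp0 : p i₀ = x := if_pos rfl
    have hp1 : p j₀ = y := by
      simp only [p, if_neg hij.symm, if_true]
    have hp2 : ∀ j, j ≠ i₀ → j ≠ j₀ → p j = b j := by
      intro j h1 h2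
      simp only [p, if_neg h1, if_neg h2]
    have hba : pf ψ (b i₀) (b j₀) = 0 := hb1 _ _ hij
    have hab : pf ψ (b j₀) (b i₀) = 0 := hb1 _ _ hij.symm
    have hxx : pf ψ x x = 0 := by
      simp only [x, pf_add_left, pf_add_right, pf_smul_left, pf_smul_right, hba, hab]
      linear_combination hc2
    have hyy : pf ψ y y = 0 := by
      simp only [y, pf_add_left, pf_add_right, pf_smul_left, pf_smul_right, hba, hab]
      linear_combination hc2
    have hxy : pf ψ x y = 2 * pf ψ (b j₀) (b j₀) := by
      simp only [x, y, pf_add_left, pf_add_right, pf_smul_left, pf_smul_right, hba, hab]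
      linear_combination - hc2
    have hyx : pf ψ y x = 2 * pf ψ (b j₀) (b j₀) := by rw [pf_symm hs, hxy]
    have hxb : ∀ j, j ≠ i₀ → j ≠ j₀ → pf ψ x (b j) = 0 := by
      intro j h1 h2
      simp only [x, pf_add_left, pf_smul_left, hb1 _ _ h1.symm, hb1 _ _ h2.symm, mul_zero,
        add_zero]
    have hyb : ∀ j, j ≠ i₀ → j ≠ j₀ → pf ψ y (b j) = 0 := by
      intro j h1 h2
      simp only [y, pf_add_left, pf_smul_left, hb1 _ _ h1.symm, hb1 _ _ h2.symm, mul_zero,
        add_zero]
    have h2b : 2 * pf ψ (b j₀) (b j₀) ≠ 0 := mul_ne_zero two_ne_zero (hb2 j₀)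
    have hdet : (cols p).det ≠ 0 := by
      refine det_cols (fun v hv => ?_)
      have hk : ∀ k, ∑ j, v j * pf ψ (p k) (p j) = 0 := by
        intro k
        rw [← pf_cols, hv]
        simp [pf]
      funext k
      by_cases hk0 : k = i₀
      · subst hk0
        have h := hk j₀
        rw [Finset.sum_eq_single i₀] at h
        · rw [hp1, hp0, hyx] at h
          exact (mul_eq_zero.mp h).resolve_right h2b
        · intro j _ hj
          by_cases hj1 : j = j₀
          · rw [hj1, hp1, hyy, mul_zero]
          · rw [hp1, hp2 j hj hj1, hyb j hj hj1, mul_zero]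
        · intro h; exact absurd (Finset.mem_univ _) h
      · by_cases hk1 : k = j₀
        · subst hk1
          have h := hk i₀
          rw [Finset.sum_eq_single j₀] at h
          · rw [hp1, hp0, hxy] at h
            exact (mul_eq_zero.mp h).resolve_right h2b
          · intro j _ hj
            by_cases hj1 : j = i₀
            · rw [hj1, hp0, hxx, mul_zero]
            · rw [hp0, hp2 j hj1 hj, hxb j hj1 hj, mul_zero]
          · intro h; exact absurd (Finset.mem_univ _) h
        · have h := hk k
          rw [Finset.sum_eq_single k] at h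
          · rw [hp2 k hk0 hk1] at h
            exact (mul_eq_zero.mp h).resolve_right (hb2 k)
          · intro j _ hj
            by_cases hj0 : j = i₀
            · rw [hj0, hp0, hp2 k hk0 hk1, pf_symm hs, hxb k hk0 hk1, mul_zero]
            · by_cases hj1 : j = j₀
              · rw [hj1, hp1, hp2 k hk0 hk1, pf_symm hs, hyb k hk0 hk1, mul_zero]
              · rw [hp2 j hj0 hj1, hp2 k hk0 hk1, hb1 _ _ hj.symm, mul_zero]
          · intro h; exact absurd (Finset.mem_univ _) h
    obtain ⟨P, hP⟩ := build (ψ := ψ) (p := p)
      (fun j => if j = i₀ then 1 else if j = j₀ then -1 else 0) hdet (by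
        intro i j hne
        by_cases hi0 : i = i₀
        · by_cases hj0 : j = i₀
          · rw [hi0, hj0, hp0] at hne
            exact absurd hxx hne
          · by_cases hj1 : j = j₀
            · simp [hi0, hj1, hij.symm]
            · rw [hi0, hp0, hp2 j hj0 hj1] at hne
              exact absurd (hxb j hj0 hj1) hne
        · by_cases hi1 : i = j₀
          · by_cases hj0 : j = i₀
            · simp [hi1, hj0, hij.symm]
            · by_cases hj1 : j = j₀
              · rw [hi1, hj1, hp1] at hne
                exact absurd hyy hne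
              · rw [hi1, hp1, hp2 j hj0 hj1] at hne
                exact absurd (hyb j hj0 hj1) hne
          · by_cases hj0 : j = i₀
            · rw [hj0, hp0, hp2 i hi0 hi1, pf_symm hs] at hne
              exact absurd (hxb i hi0 hi1) hne
            · by_cases hj1 : j = j₀
              · rw [hj1, hp1, hp2 i hi0 hi1, pf_symm hs] at hne
                exact absurd (hyb i hi0 hi1) hne
              · simp [hi0, hi1, hj0, hj1])
    refine ⟨P, _, i₀, j₀, ?_, ?_, ?_, hP⟩
    · simp
    · simp [hij.symm]
    · intro j h1 h2
      simp [h1, h2]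
  · -- alternating
    have hs : ψ.transpose = -ψ := by rw [hψ, hw.neg_one_pow, neg_one_smul]
    have hself : ∀ z : Fin r → K, pf ψ z z = 0 := by
      intro z
      have h := pf_neg hs z z
      have h2 : (2 : K) * pf ψ z z = 0 := by linear_combination h
      exact (mul_eq_zero.mp h2).resolve_left two_ne_zero
    let i₀ : Fin r := ⟨0, by omega⟩
    obtain ⟨j₀, hj⟩ : ∃ j, ψ i₀ j ≠ 0 := by
      by_contra hcon
      push Not at hcon
      exact hdet (Matrix.det_eq_zero_of_row_eq_zero i₀ hcon)
    let e : Fin r → (Fin r → K) := fun i => Pi.single i 1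
    have hee : ∀ i j, pf ψ (e i) (e j) = ψ i j := by
      intro i j
      simp [pf, e]
    have hij : i₀ ≠ j₀ := by
      intro h
      have h1 := hself (e i₀)
      rw [hee] at h1
      rw [← h] at hj
      exact hj h1
    let x := e i₀
    let y := e j₀
    set d : K := pf ψ x y with hd
    have hd0 : d ≠ 0 := by rw [hd, hee]; exact hj
    have hyx : pf ψ y x = - d := by rw [hd, pf_neg hs]
    let b : Fin r → (Fin r → K) := fun j =>
      e j + (-(pf ψ (e j) y / d)) • x + (-(pf ψ x (e j) / d)) • y
    let p : Fin r → (Fin r → K) := fun j => if j = i₀ then x else if j = j₀ then y else b j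
    have hp0 : p i₀ = x := if_pos rfl
    have hp1 : p j₀ = y := by
      simp only [p, if_neg hij.symm, if_true]
    have hp2 : ∀ j, j ≠ i₀ → j ≠ j₀ → p j = b j := by
      intro j h1 h2
      simp only [p, if_neg h1, if_neg h2]
    have hxb : ∀ j, pf ψ x (b j) = 0 := by
      intro j
      simp only [b, pf_add_right, pf_smul_right, hself x, ← hd]
      field_simp
      ring
    have hby : ∀ j, pf ψ (b j) y = 0 := by
      intro j
      simp only [b, pf_add_left, pf_smul_left, hself y, ← hd]
      field_simp
      ring
    have hyb : ∀ j, pf ψ y (b j) = 0 := by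
      intro j
      rw [pf_neg hs, hby, neg_zero]
    have hbx : ∀ j, pf ψ (b j) x = 0 := by
      intro j
      rw [pf_neg hs, hxb, neg_zero]
    have hdet : (cols p).det ≠ 0 := by
      refine det_cols (fun v hv => ?_)
      have hk : ∀ k, ∑ j, v j * p j k = 0 := by
        intro k
        have h := congrFun hv k
        rw [cols_mulVec] at h
        simpa using h
      have hoth : ∀ k, k ≠ i₀ → k ≠ j₀ → v k = 0 := by
        intro k h1 h2
        have h := hk k
        rw [Finset.sum_eq_single k] at h
        · rw [hp2 k h1 h2] at h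
          simpa [b, x, y, e, h1, h2] using h
        · intro j _ hj
          by_cases hj0 : j = i₀
          · rw [hj0, hp0]
            simp [x, e, h1]
          · by_cases hj1 : j = j₀
            · rw [hj1, hp1]
              simp [y, e, h2]
            · rw [hp2 j hj0 hj1]
              simp [b, x, y, e, h1, h2, hj.symm]
        · intro h; exact absurd (Finset.mem_univ _) h
      funext k
      by_cases hk0 : k = i₀
      · subst hk0
        have h := hk i₀
        rw [Finset.sum_eq_single i₀] at h
        · rw [hp0] at h
          simpa [x, e] using h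
        · intro j _ hj
          by_cases hj1 : j = j₀
          · rw [hj1, hp1]
            simp [y, e, hij]
          · rw [hoth j hj hj1, zero_mul]
        · intro h; exact absurd (Finset.mem_univ _) h
      · by_cases hk1 : k = j₀
        · rw [hk1]
          have h := hk j₀
          rw [Finset.sum_eq_single j₀] at h
          · rw [hp1] at h
            simpa [y, e] using h
          · intro j _ hj
            by_cases hj1 : j = i₀
            · rw [hj1, hp0]
              simp [x, e, hij.symm]
            · rw [hoth j hj1 hj, zero_mul]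
          · intro h; exact absurd (Finset.mem_univ _) h
        · exact hoth k hk0 hk1
    obtain ⟨P, hP⟩ := build (ψ := ψ) (p := p)
      (fun j => if j = i₀ then 1 else if j = j₀ then -1 else 0) hdet (by
        intro i j hne
        by_cases hi0 : i = i₀
        · by_cases hj0 : j = i₀
          · rw [hi0, hj0, hp0] at hne
            exact absurd (hself x) hne
          · by_cases hj1 : j = j₀
            · simp [hi0, hj1, hij.symm]
            · rw [hi0, hp0, hp2 j hj0 hj1] at hne
              exact absurd (hxb j) hne
        · by_cases hi1 : i = j₀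
          · by_cases hj0 : j = i₀
            · simp [hi1, hj0, hij.symm]
            · by_cases hj1 : j = j₀
              · rw [hi1, hj1, hp1] at hne
                exact absurd (hself y) hne
              · rw [hi1, hp1, hp2 j hj0 hj1] at hne
                exact absurd (hyb j) hne
          · by_cases hj0 : j = i₀
            · rw [hj0, hp0, hp2 i hi0 hi1] at hne
              exact absurd (hbx i) hne
            · by_cases hj1 : j = j₀
              · rw [hj1, hp1, hp2 i hi0 hi1] at hne
                exact absurd (hby i) hne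
              · simp [hi0, hi1, hj0, hj1])
    refine ⟨P, _, i₀, j₀, ?_, ?_, ?_, hP⟩
    · simp
    · simp [hij.symm]
    · intro j h1 h2
      simp [h1, h2]

end EM
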